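import Mathlib
import Pool.Agent.H184.Thr.Main
import Pool.Agent.H805.T5.Top

set_option autoImplicit false

namespace Pool.Agent.Results.MP_24ddde_co.DimensionThree

open Pool.Agent.H184.Thr

/-- The case `k = 3`: the threshold exists, and it is `4` or `5`. -/
theorem result : ∃ N : ℕ, (N = 4 ∨ N = 5) ∧ ∀ n : ℕ, 1 ≤ n →
    (n < N → FirstCanForceWin 3 n) ∧ (N ≤ n → SecondCanForceDraw 3 n) :=
  three Pool.Agent.H805.T5.cube5

end Pool.Agent.Results.MP_24ddde_co.DimensionThree
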